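import Pool.Agent.Results.MP_1a49c3_al.SixClosuresFalse

/-!
# Infinitely many closures of images of homogeneous noncommutative polynomials

Let `K` be an algebraically closed field and `Z_k ⊆ M_n(K)` the Zariski closure of the image of the
polynomial `[x, y] ^ k`, which is homogeneous of degree `2 k`.

(1) A diagonal matrix belongs to `Z_k` if and only if its entries are the `k`-th powers of numbers
with sum zero.

(2) If `n ≥ 3` and `k ≠ l` are prime to the characteristic, then `Z_k` is not contained in `Z_l`.

(3) For every `n ≥ 3` the images of homogeneous polynomials have infinitely many closures in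
`M_n(K)`.

(4) For `n = 3` there are infinitely many besides the six conjectured ones.

The earlier result `SixClosuresFalse` of this repository shows that for `n = 3` there is a seventh
closure (`Z_2` or `Z_3`, by explicit equations). Here no equations are used. The eigenvalues of the
matrices in `Z_k` are `k`-th powers of numbers with sum zero (lying over for the integral extension
of the ring of invariants by the eigenvalues). If `Z_l ⊆ Z_k`, then one takes the `l`-th power of the
diagonal matrix with the entries `s ^ k, 1, -1 - s ^ k, 0, …, 0`: there are roots of unity `z, w` of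
order `k` with `(-z s ^ l - w) ^ k = (-1 - s ^ k) ^ l`. So this holds for infinitely many `s` with
the same `z, w`, hence identically, and a comparison of coefficients gives `k = l`.
-/

set_option autoImplicit false

namespace Pool.Agent.Results.MP_1a49c3_al.InfinitelyManyClosures

open Matrix Pool.Agent.Results.MP_1a49c3_al.SixClosuresFalse

/-- The image of the noncommutative polynomial `p` on `n × n` matrices. -/
def imageN (n : ℕ) {K : Type} [Field K] {m : ℕ} (p : FreeAlgebra K (Fin m)) :
    Set (Matrix (Fin n) (Fin n) K) :=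
  {B | ∃ A : Fin m → Matrix (Fin n) (Fin n) K, FreeAlgebra.lift K A p = B}

/-- Zariski closure in the affine space of `n × n` matrices: the common zeros of all polynomials in
the entries that vanish on `S`. -/
def closureN {n : ℕ} {K : Type} [Field K] (S : Set (Matrix (Fin n) (Fin n) K)) :
    Set (Matrix (Fin n) (Fin n) K) :=
  {B | ∀ f : MvPolynomial (Fin n × Fin n) K,
    (∀ A ∈ S, MvPolynomial.eval (fun ij => A ij.1 ij.2) f = 0) →
      MvPolynomial.eval (fun ij => B ij.1 ij.2) f = 0}

section CharpolyPow

open Polynomial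

variable {ι : Type} [Fintype ι] [DecidableEq ι] {K : Type} [Field K] [IsAlgClosed K]

lemma charpoly_prod (A : Matrix ι ι K) : A.charpoly = (A.charpoly.roots.map fun a => X - C a).prod :=
  (IsAlgClosed.splits A.charpoly).eq_prod_roots_of_monic A.charpoly_monic

lemma card_roots' (A : Matrix ι ι K) : A.charpoly.roots.card = Fintype.card ι := by
  rw [← (IsAlgClosed.splits A.charpoly).natDegree_eq_card_roots, A.charpoly_natDegree_eq_dim]

lemma det_scalar_sub (A : Matrix ι ι K) (r : K) :
    (Matrix.scalar ι r - A).det = (A.charpoly.roots.map fun a => r - a).prod := by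
  rw [← Matrix.eval_charpoly]
  conv_lhs => rw [charpoly_prod A]
  rw [eval_multiset_prod, Multiset.map_map]
  congr 1
  refine Multiset.map_congr rfl fun a _ => ?_
  simp

omit [IsAlgClosed K] in
lemma prod_neg_map (s : Multiset K) (f : K → K) :
    (s.map fun a => - f a).prod = (-1) ^ s.card * (s.map f).prod := by
  induction s using Multiset.induction_on with
  | empty => simp
  | cons a s ih => rw [Multiset.map_cons, Multiset.prod_cons, ih, Multiset.map_cons,
      Multiset.prod_cons, Multiset.card_cons, pow_succ]; ring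

lemma det_sub_scalar (A : Matrix ι ι K) (r : K) :
    (A - Matrix.scalar ι r).det = (A.charpoly.roots.map fun a => a - r).prod := by
  have h1 : A - Matrix.scalar ι r = - (Matrix.scalar ι r - A) := by abel
  rw [h1, Matrix.det_neg, det_scalar_sub, ← card_roots' A, ← prod_neg_map]
  congr 1
  refine Multiset.map_congr rfl fun a _ => by ring

lemma det_aeval (A : Matrix ι ι K) {p : K[X]} (hp : p.Monic) :
    (aeval A p).det = (A.charpoly.roots.map fun a => p.eval a).prod := by
  let φ : K[X] →* K := Matrix.detMonoidHom.comp (aeval A : K[X] →ₐ[K] Matrix ι ι K).toMonoidHom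
  have hφ : ∀ q, φ q = (aeval A q).det := fun q => rfl
  have hp2 := (IsAlgClosed.splits p).eq_prod_roots_of_monic hp
  rw [← hφ]
  conv_lhs => rw [hp2]
  rw [map_multiset_prod, Multiset.map_map]
  have h1 : (p.roots.map (φ ∘ fun a => X - C a)) =
      p.roots.map fun r => (A.charpoly.roots.map fun a => a - r).prod := by
    refine Multiset.map_congr rfl fun r _ => ?_
    rw [Function.comp_apply, hφ, ← det_sub_scalar]
    congr 1
    simp [Matrix.algebraMap_eq_diagonal, Matrix.scalar_apply]
  rw [h1, Multiset.prod_map_prod_map]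
  congr 1
  refine Multiset.map_congr rfl fun a _ => ?_
  conv_rhs => rw [hp2]
  rw [eval_multiset_prod, Multiset.map_map]
  congr 1
  refine Multiset.map_congr rfl fun r _ => ?_
  simp

lemma charpoly_pow (A : Matrix ι ι K) {n : ℕ} (hn : n ≠ 0) :
    (A ^ n).charpoly = (A.charpoly.roots.map fun a => X - C (a ^ n)).prod := by
  apply Polynomial.funext
  intro s
  rw [Matrix.eval_charpoly, eval_multiset_prod, Multiset.map_map]
  have h1 : Matrix.scalar ι s - A ^ n = - (aeval A (X ^ n - C s)) := by
    simp [Matrix.algebraMap_eq_diagonal, Matrix.scalar_apply]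
  rw [h1, Matrix.det_neg, det_aeval A (monic_X_pow_sub_C s hn), ← card_roots' A, ← prod_neg_map]
  congr 1
  refine Multiset.map_congr rfl fun a _ => ?_
  simp

/-- a multiset with `n` elements is given by a function on `Fin n` -/
lemma exists_fun {α : Type} (s : Multiset α) (n : ℕ) (h : s.card = n) :
    ∃ f : Fin n → α, Finset.univ.val.map f = s := by
  obtain ⟨l, rfl⟩ := Quot.exists_rep s
  have hl : l.length = n := h
  subst hl
  refine ⟨l.get, ?_⟩
  rw [Fin.univ_val_map, List.ofFn_get]
  rfl

/-- the eigenvalues of the `k`-th power of a matrix of trace zero -/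
lemma pow_trace_zero {n : ℕ} (A : Matrix (Fin n) (Fin n) K) (hA : A.trace = 0) {k : ℕ} (hk : k ≠ 0) :
    ∃ a : Fin n → K, ∑ i, a i = 0 ∧ (A ^ k).charpoly = ∏ i, (X - C (a i ^ k)) := by
  obtain ⟨a, ha⟩ := exists_fun A.charpoly.roots n (by rw [card_roots', Fintype.card_fin])
  refine ⟨a, ?_, ?_⟩
  · rw [Matrix.trace_eq_sum_roots_charpoly, ← ha] at hA
    exact hA
  · rw [charpoly_pow A hk, ← ha, Multiset.map_map]
    rfl

end CharpolyPow

section Closed

open MvPolynomial

variable {K : Type} [Field K]

/-- the `i`-th coefficient of the characteristic polynomial as a polynomial in the entries -/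
noncomputable def cf (n : ℕ) (K : Type) [Field K] (i : Fin n) : MvPolynomial (Fin n × Fin n) K :=
  (Matrix.mvPolynomialX (Fin n) (Fin n) K).charpoly.coeff i

lemma eval_cf {n : ℕ} (B : Matrix (Fin n) (Fin n) K) (i : Fin n) :
    eval (fun ij => B ij.1 ij.2) (cf n K i) = B.charpoly.coeff i := by
  unfold cf
  have h := Matrix.charpoly_map (Matrix.mvPolynomialX (Fin n) (Fin n) K)
    (eval (fun ij : Fin n × Fin n => B ij.1 ij.2))
  have h2 := Matrix.mvPolynomialX_mapMatrix_eval (m := Fin n) B
  rw [RingHom.mapMatrix_apply] at h2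
  rw [h2] at h
  rw [h, Polynomial.coeff_map]

/-- the polynomial with the roots `x_j ^ k` -/
noncomputable def PX (n k : ℕ) (K : Type) [Field K] : Polynomial (MvPolynomial (Fin n) K) :=
  ∏ j : Fin n, (Polynomial.X - Polynomial.C (X j ^ k))

lemma PX_monic (n k : ℕ) : (PX n k K).Monic :=
  Polynomial.monic_prod_of_monic _ _ fun _ _ => Polynomial.monic_X_sub_C _

lemma PX_natDegree (n k : ℕ) : (PX n k K).natDegree = n := by
  unfold PX
  rw [Polynomial.natDegree_prod_of_monic _ _ fun j _ => Polynomial.monic_X_sub_C _]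
  simp only [Polynomial.natDegree_X_sub_C]
  simp

lemma PX_map {n k : ℕ} (a : Fin n → K) :
    (PX n k K).map (eval a) = ∏ i, (Polynomial.X - Polynomial.C (a i ^ k)) := by
  unfold PX
  rw [Polynomial.map_prod]
  simp

/-- the ring homomorphism sending the `i`-th variable to the `i`-th coefficient of `PX` -/
noncomputable def phi (n k : ℕ) (K : Type) [Field K] :
    MvPolynomial (Fin n) K →ₐ[K] MvPolynomial (Fin n) K :=
  aeval fun i : Fin n => (PX n k K).coeff i

lemma eval_phi {n k : ℕ} (a : Fin n → K) (f : MvPolynomial (Fin n) K) :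
    eval a (phi n k K f) =
      eval (fun i : Fin n => (∏ j, (Polynomial.X - Polynomial.C (a j ^ k))).coeff i) f := by
  have h : (eval a).comp (phi n k K).toRingHom =
      eval (fun i : Fin n => (∏ j, (Polynomial.X - Polynomial.C (a j ^ k))).coeff i) := by
    apply MvPolynomial.ringHom_ext
    · intro r
      simp [phi]
    · intro i
      simp only [phi, AlgHom.toRingHom_eq_coe, RingHom.coe_comp, RingHom.coe_coe,
        Function.comp_apply, aeval_X, eval_X]
      rw [← PX_map, Polynomial.coeff_map]
  exact congrArg (fun g : MvPolynomial (Fin n) K →+* K => g f) h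

/-- the ideal of the hyperplane of the vectors with sum zero -/
noncomputable def JJ (n : ℕ) (K : Type) [Field K] : Ideal (MvPolynomial (Fin n) K) :=
  Ideal.span {∑ j, X j}

/-- the composite of `phi` with the restriction to the hyperplane -/
noncomputable def psi (n k : ℕ) (K : Type) [Field K] :
    MvPolynomial (Fin n) K →+* (MvPolynomial (Fin n) K ⧸ JJ n K) :=
  (Ideal.Quotient.mk (JJ n K)).comp (phi n k K).toRingHom

lemma psi_apply {n k : ℕ} (f : MvPolynomial (Fin n) K) :
    psi n k K f = Ideal.Quotient.mk (JJ n K) (phi n k K f) := rfl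

lemma psi_integral {n k : ℕ} (hk : 0 < k) : (psi n k K).IsIntegral := by
  -- the monic polynomial over the source
  let Q : Polynomial (MvPolynomial (Fin n) K) :=
    Polynomial.X ^ n + ∑ i : Fin n, Polynomial.C (X i) * Polynomial.X ^ (i : ℕ)
  have hQ : Q.Monic := Polynomial.monic_X_pow_add (Polynomial.degree_sum_fin_lt _)
  have hQP : Q.map (phi n k K).toRingHom = PX n k K := by
    have h1 := (PX_monic (K := K) n k).as_sum
    rw [PX_natDegree, Finset.sum_range] at h1
    rw [h1]
    simp only [Q, Polynomial.map_add, Polynomial.map_pow, Polynomial.map_X, Polynomial.map_sum,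
      Polynomial.map_mul, Polynomial.map_C]
    congr 1
    refine Finset.sum_congr rfl fun i _ => ?_
    simp [phi]
  have hX : ∀ j : Fin n, (psi n k K).IsIntegralElem (Ideal.Quotient.mk (JJ n K) (X j)) := by
    intro j
    let _ := (psi n k K).toAlgebra
    have h1 : IsIntegral (MvPolynomial (Fin n) K) (Ideal.Quotient.mk (JJ n K) (X j) ^ k) := by
      refine ⟨Q, hQ, ?_⟩
      change Polynomial.eval₂ (psi n k K) _ Q = 0
      have h2 : Polynomial.eval₂ (psi n k K) (Ideal.Quotient.mk (JJ n K) (X j) ^ k) Q =
          Ideal.Quotient.mk (JJ n K) (Polynomial.eval (X j ^ k) (Q.map (phi n k K).toRingHom)) := by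
        rw [Polynomial.eval_map, Polynomial.hom_eval₂, map_pow]
        rfl
      rw [h2, hQP]
      unfold PX
      rw [Polynomial.eval_prod, Finset.prod_eq_zero (Finset.mem_univ j) (by simp), map_zero]
    exact IsIntegral.of_pow hk h1
  intro y
  obtain ⟨p, rfl⟩ := Ideal.Quotient.mk_surjective y
  induction p using MvPolynomial.induction_on with
  | C a =>
    have : Ideal.Quotient.mk (JJ n K) (C a) = psi n k K (C a) := by
      rw [psi_apply]
      simp [phi]
    rw [this]
    exact (psi n k K).isIntegralElem_map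
  | add p q hp hq =>
    rw [map_add]
    exact RingHom.IsIntegralElem.add _ hp hq
  | mul_X p j hp =>
    rw [map_mul]
    exact RingHom.IsIntegralElem.mul _ hp (hX j)

/-- If the point with the coordinates of the characteristic polynomial of `B` satisfies all
equations of the image, it is in the image. -/
lemma lying_over [IsAlgClosed K] {n k : ℕ} (hk : 0 < k) (e : Fin n → K)
    (he : ∀ f : MvPolynomial (Fin n) K, phi n k K f ∈ JJ n K → eval e f = 0) :
    ∃ a : Fin n → K, ∑ i, a i = 0 ∧
      ∀ i : Fin n, (∏ j, (Polynomial.X - Polynomial.C (a j ^ k))).coeff i = e i := by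
  let _ := (psi n k K).toAlgebra
  have : Algebra.IsIntegral (MvPolynomial (Fin n) K) (MvPolynomial (Fin n) K ⧸ JJ n K) :=
    ⟨fun y => psi_integral hk y⟩
  have hmax : (RingHom.ker (eval e)).IsMaximal :=
    RingHom.ker_isMaximal_of_surjective (eval e) fun c => ⟨C c, by simp⟩
  obtain ⟨Q, hQ, hQc⟩ := Ideal.exists_ideal_over_maximal_of_isIntegral
    (S := MvPolynomial (Fin n) K ⧸ JJ n K) (RingHom.ker (eval e)) (by
      intro f hf
      rw [RingHom.mem_ker] at hf ⊢
      apply he
      have : psi n k K f = 0 := hf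
      rw [psi_apply] at this
      exact Ideal.Quotient.eq_zero_iff_mem.1 this)
  have hM : (Q.comap (Ideal.Quotient.mk (JJ n K))).IsMaximal :=
    Ideal.comap_isMaximal_of_surjective _ Ideal.Quotient.mk_surjective
  obtain ⟨a, ha⟩ := MvPolynomial.isMaximal_iff_eq_vanishingIdeal_singleton.1 hM
  have hmem : ∀ f, f ∈ Q.comap (Ideal.Quotient.mk (JJ n K)) → eval a f = 0 := by
    intro f hf
    rw [ha] at hf
    simpa [MvPolynomial.mem_vanishingIdeal_singleton_iff, aeval_eq_eval] using hf
  refine ⟨a, ?_, fun i => ?_⟩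
  · have h := hmem (∑ j, X j) (by
      rw [Ideal.mem_comap]
      have : Ideal.Quotient.mk (JJ n K) (∑ j, X j) = 0 :=
        Ideal.Quotient.eq_zero_iff_mem.2 (Ideal.subset_span rfl)
      rw [this]
      exact Q.zero_mem)
    simpa using h
  · have h1 : (X i - C (e i) : MvPolynomial (Fin n) K) ∈ RingHom.ker (eval e) := by
      rw [RingHom.mem_ker]
      simp
    rw [← hQc, Ideal.mem_comap] at h1
    have h2 : psi n k K (X i - C (e i)) ∈ Q := h1
    rw [psi_apply] at h2
    have h3 := hmem _ (Ideal.mem_comap.2 h2)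
    rw [eval_phi] at h3
    simpa [sub_eq_zero] using h3

end Closed

lemma eval_aeval_cf {K : Type} [Field K] {n : ℕ} (M : Matrix (Fin n) (Fin n) K)
    (f : MvPolynomial (Fin n) K) :
    MvPolynomial.eval (fun ij => M ij.1 ij.2) (MvPolynomial.aeval (cf n K) f) =
      MvPolynomial.eval (fun i : Fin n => M.charpoly.coeff i) f := by
  induction f using MvPolynomial.induction_on with
  | C a => simp
  | add p q hp hq => rw [map_add, map_add, hp, hq, map_add]
  | mul_X p i hp =>
    rw [map_mul, map_mul, hp, MvPolynomial.aeval_X, eval_cf, map_mul, MvPolynomial.eval_X]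

lemma lift_comm_pow {K : Type} [Field K] {n : ℕ} (A : Fin 2 → Matrix (Fin n) (Fin n) K) (k : ℕ) :
    FreeAlgebra.lift K A (SixClosuresFalse.comm K ^ k) = (A 0 * A 1 - A 1 * A 0) ^ k := by
  simp only [SixClosuresFalse.comm, map_pow, map_sub, map_mul, FreeAlgebra.lift_ι_apply]

/-- two monic polynomials of degree `n` with the same lower coefficients -/
lemma eq_of_coeff {K : Type} [Field K] {n : ℕ} {p q : Polynomial K} (hp : p.Monic) (hq : q.Monic)
    (hpn : p.natDegree = n) (hqn : q.natDegree = n) (h : ∀ i : Fin n, p.coeff i = q.coeff i) :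
    p = q := by
  rw [hp.as_sum, hq.as_sum, hpn, hqn, Finset.sum_range, Finset.sum_range]
  congr 1
  exact Finset.sum_congr rfl fun i _ => by rw [h i]

/-- the eigenvalues of the matrices in the closure of the image of the `k`-th power of the
commutator -/
theorem closure_eigen {K : Type} [Field K] [IsAlgClosed K] {n k : ℕ} (hk : 0 < k)
    {B : Matrix (Fin n) (Fin n) K}
    (hB : B ∈ closureN (imageN n (SixClosuresFalse.comm K ^ k))) :
    ∃ a : Fin n → K, ∑ i, a i = 0 ∧
      B.charpoly = ∏ i, (Polynomial.X - Polynomial.C (a i ^ k)) := by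
  obtain ⟨a, ha, hc⟩ := lying_over hk (fun i : Fin n => B.charpoly.coeff i) (by
    intro f hf
    have h := hB (MvPolynomial.aeval (cf n K) f) (by
      rintro _ ⟨A, rfl⟩
      have htr : (A 0 * A 1 - A 1 * A 0).trace = 0 := by
        rw [Matrix.trace_sub, Matrix.trace_mul_comm, sub_self]
      obtain ⟨b, hb, hb'⟩ := pow_trace_zero _ htr hk.ne'
      rw [lift_comm_pow, eval_aeval_cf]
      have h1 : MvPolynomial.eval (fun i : Fin n =>
          ((A 0 * A 1 - A 1 * A 0) ^ k).charpoly.coeff i) f =
          MvPolynomial.eval b (phi n k K f) := by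
        rw [eval_phi, ← hb']
      rw [h1]
      obtain ⟨q, hq⟩ := Ideal.mem_span_singleton'.1 hf
      rw [← hq, map_mul]
      simp [hb])
    rw [eval_aeval_cf] at h
    exact h)
  refine ⟨a, ha, eq_of_coeff (Matrix.charpoly_monic B)
    (Polynomial.monic_prod_of_monic _ _ fun _ _ => Polynomial.monic_X_sub_C _)
    (n := n) ?_ ?_ fun i => (hc i).symm⟩
  · rw [Matrix.charpoly_natDegree_eq_dim, Fintype.card_fin]
  · rw [Polynomial.natDegree_prod_of_monic _ _ fun _ _ => Polynomial.monic_X_sub_C _]
    simp only [Polynomial.natDegree_X_sub_C]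
    simp

/-! ### Diagonal matrices in the image -/

/-- the vector `(u, v - u, -v, 0, …, 0)` -/
def dg {K : Type} [Field K] (m : ℕ) (u v : K) : Fin (m + 3) → K :=
  fun i => if i = 0 then u else if i = 1 then v - u else if i = 2 then -v else 0

lemma ne_facts (m : ℕ) : (0 : Fin (m + 3)) ≠ 1 ∧ (0 : Fin (m + 3)) ≠ 2 ∧ (1 : Fin (m + 3)) ≠ 2 := by
  refine ⟨by simp, ?_, ?_⟩
  · intro h
    have := congrArg Fin.val h
    simp [Nat.mod_eq_of_lt (show 2 < m + 3 by omega)] at this
  · intro h
    have := congrArg Fin.val h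
    simp [Nat.mod_eq_of_lt (show 2 < m + 3 by omega)] at this

lemma diag_mem {K : Type} [Field K] (m : ℕ) (u v : K) (l : ℕ) :
    Matrix.diagonal (dg m u v) ^ l ∈ imageN (m + 3) (SixClosuresFalse.comm K ^ l) := by
  obtain ⟨h01, h02, h12⟩ := ne_facts m
  refine ⟨![Matrix.single 0 1 1 + Matrix.single 1 2 1,
    Matrix.single 1 0 u + Matrix.single 2 1 v], ?_⟩
  rw [lift_comm_pow]
  congr 1
  simp only [Matrix.cons_val_zero, Matrix.cons_val_one, add_mul, mul_add,
    Matrix.single_mul_single_same, one_mul, mul_one]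
  rw [Matrix.single_mul_single_of_ne (h := h12), Matrix.single_mul_single_of_ne (h := h12.symm),
    Matrix.single_mul_single_of_ne (h := h01.symm), Matrix.single_mul_single_of_ne (h := h01)]
  ext i j
  by_cases hij : i = j
  · subst hij
    simp only [Matrix.add_apply, Matrix.sub_apply, Matrix.single_apply,
      Matrix.diagonal_apply_eq, dg, and_self, add_zero, zero_add]
    by_cases h0 : i = 0
    · subst h0
      simp [h01.symm, h02.symm]
    · by_cases h1 : i = 1
      · subst h1
        simp [h01, h12.symm]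
      · by_cases h2 : i = 2
        · subst h2
          simp [h02, h12, h02.symm, h12.symm]
        · simp [h0, h1, h2, Ne.symm h0, Ne.symm h1, Ne.symm h2]
  · have e : ∀ (a : Fin (m + 3)) (c : K), (Matrix.single a a c : Matrix _ _ K) i j = 0 := by
      intro a c
      rw [Matrix.single_apply, if_neg]
      rintro ⟨rfl, rfl⟩
      exact hij rfl
    simp [e, Matrix.diagonal_apply_ne _ hij]

/-! ### The polynomial identity -/

lemma exists_perm_of_map_eq {T : Type} [DecidableEq T] {D : ℕ} (f g : Fin D → T)
    (h : (Finset.univ : Finset (Fin D)).val.map f = Finset.univ.val.map g) :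
    ∃ σ : Equiv.Perm (Fin D), g ∘ σ = f := by
  have hc : ∀ t, Fintype.card {a // f a = t} = Fintype.card {a // g a = t} := by
    intro t
    have h1 := congrArg (Multiset.count t) h
    rw [Multiset.count_map, Multiset.count_map] at h1
    rw [Fintype.card_subtype, Fintype.card_subtype]
    have e1 : (Finset.univ.filter (fun a => f a = t)).card =
        (Multiset.filter (fun a => t = f a) (Finset.univ : Finset (Fin D)).val).card := by
      rw [← Finset.filter_val, ← Finset.card_def]
      simp only [eq_comm]
    have e2 : (Finset.univ.filter (fun a => g a = t)).card =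
        (Multiset.filter (fun a => t = g a) (Finset.univ : Finset (Fin D)).val).card := by
      rw [← Finset.filter_val, ← Finset.card_def]
      simp only [eq_comm]
    rw [e1, e2, h1]
  have he : ∀ t, Nonempty ({a // f a = t} ≃ {a // g a = t}) := fun t =>
    Fintype.card_eq.mp (hc t)
  let e := fun t => Classical.choice (he t)
  refine ⟨(Equiv.sigmaFiberEquiv f).symm.trans
    ((Equiv.sigmaCongrRight (fun t => (e t))).trans (Equiv.sigmaFiberEquiv g)), ?_⟩
  funext a
  exact (e (f a) ⟨a, rfl⟩).2

lemma prod_eq_multiset {K : Type} [Field K] {D : ℕ} (f : Fin D → K) :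
    (∏ i, (Polynomial.X - Polynomial.C (f i))) =
      ((Finset.univ.val.map f).map fun a => Polynomial.X - Polynomial.C a).prod := by
  rw [Multiset.map_map]
  rfl

/-- for every `s ≠ 0` there are two `k`-th roots of unity satisfying the relation -/
lemma rel_of_mem {K : Type} [Field K] [IsAlgClosed K] {m k l : ℕ} (hk : 0 < k) (hl : 0 < l)
    (hsub : imageN (m + 3) (SixClosuresFalse.comm K ^ l) ⊆
      closureN (imageN (m + 3) (SixClosuresFalse.comm K ^ k))) (s : K) (hs : s ≠ 0) :
    ∃ z w : K, z ^ k = 1 ∧ w ^ k = 1 ∧ (-(z * s ^ l) - w) ^ k = (-1 - s ^ k) ^ l := by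
  classical
  obtain ⟨h01, h02, h12⟩ := ne_facts m
  obtain ⟨a, ha, hc⟩ := closure_eigen hk (hsub (diag_mem m (s ^ k) (1 + s ^ k) l))
  rw [Matrix.diagonal_pow, Matrix.charpoly_diagonal] at hc
  have hc' := congrArg Polynomial.roots hc
  rw [prod_eq_multiset, prod_eq_multiset, Polynomial.roots_multiset_prod_X_sub_C,
    Polynomial.roots_multiset_prod_X_sub_C] at hc'
  obtain ⟨σ, hσ⟩ := exists_perm_of_map_eq _ _ hc'
  have hσ' : ∀ i, a (σ i) ^ k = dg m (s ^ k) (1 + s ^ k) i ^ l := fun i => by
    have := congrFun hσ i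
    simpa using this
  have hsum : ∑ i, a (σ i) = 0 := by
    rw [Equiv.sum_comp σ a]
    exact ha
  have hz : ∀ i, i ≠ 0 → i ≠ 1 → i ≠ 2 → a (σ i) = 0 := by
    intro i h0 h1 h2
    have := hσ' i
    rw [dg, if_neg h0, if_neg h1, if_neg h2, zero_pow hl.ne'] at this
    exact pow_eq_zero_iff hk.ne' |>.1 this
  have h0 := hσ' 0
  have h1 := hσ' 1
  have h2 := hσ' 2
  rw [dg, if_pos rfl] at h0
  rw [dg, if_neg h01.symm, if_pos rfl, show (1 + s ^ k - s ^ k : K) = 1 by ring, one_pow] at h1
  rw [dg, if_neg h02.symm, if_neg h12.symm, if_pos rfl] at h2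
  have hsum3 : a (σ 0) + a (σ 1) + a (σ 2) = 0 := by
    have e : ∑ i, a (σ i) = ∑ i ∈ ({0, 1, 2} : Finset (Fin (m + 3))), a (σ i) := by
      symm
      apply Finset.sum_subset (Finset.subset_univ _)
      intro i _ hi
      simp only [Finset.mem_insert, Finset.mem_singleton, not_or] at hi
      exact hz i hi.1 hi.2.1 hi.2.2
    rw [e, Finset.sum_insert (by simp [h01, h02]), Finset.sum_insert (by simp [h12]),
      Finset.sum_singleton] at hsum
    rw [← hsum]
    ring
  refine ⟨a (σ 0) / s ^ l, a (σ 1), ?_, h1, ?_⟩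
  · rw [div_pow, h0, ← pow_mul, ← pow_mul, mul_comm k l, div_self (pow_ne_zero _ hs)]
  · rw [div_mul_cancel₀ _ (pow_ne_zero _ hs), show -a (σ 0) - a (σ 1) = a (σ 2) by
      linear_combination -hsum3, h2]
    congr 1
    ring

/-- the relation holds identically for some pair of roots of unity -/
lemma poly_rel {K : Type} [Field K] [IsAlgClosed K] {m k l : ℕ} (hk : 0 < k) (hl : 0 < l)
    (hsub : imageN (m + 3) (SixClosuresFalse.comm K ^ l) ⊆
      closureN (imageN (m + 3) (SixClosuresFalse.comm K ^ k))) :
    ∃ z w : K, z ^ k = 1 ∧ w ^ k = 1 ∧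
      ((-(Polynomial.C z * Polynomial.X ^ l) - Polynomial.C w) ^ k : Polynomial K) =
        (-1 - Polynomial.X ^ k) ^ l := by
  by_contra hcon
  push Not at hcon
  have : Infinite K := IsAlgClosed.instInfinite
  have hfin : ({z : K | z ^ k = 1}).Finite := by
    have h := Polynomial.finite_setOfPred_isRoot (p := (Polynomial.X ^ k - 1 : Polynomial K))
      (Polynomial.X_pow_sub_C_ne_zero hk 1)
    refine h.subset fun z hz => ?_
    simpa [Polynomial.IsRoot, sub_eq_zero] using hz
  have hsub2 : ({0}ᶜ : Set K) ⊆ ⋃ p ∈ {z : K | z ^ k = 1} ×ˢ {z : K | z ^ k = 1},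
      {s : K | Polynomial.IsRoot ((-(Polynomial.C p.1 * Polynomial.X ^ l) - Polynomial.C p.2) ^ k -
        (-1 - Polynomial.X ^ k) ^ l : Polynomial K) s} := by
    intro s hs
    obtain ⟨z, w, hz, hw, h⟩ := rel_of_mem hk hl hsub s hs
    simp only [Set.mem_iUnion]
    refine ⟨(z, w), ⟨hz, hw⟩, ?_⟩
    simp only [Set.mem_ofPred_eq, Polynomial.IsRoot]
    simp [h]
  have hfin2 : ({0}ᶜ : Set K).Finite := by
    refine Set.Finite.subset ((hfin.prod hfin).biUnion fun p hp => ?_) hsub2
    exact Polynomial.finite_setOfPred_isRoot (sub_ne_zero.2 (hcon p.1 p.2 hp.1 hp.2))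
  exact (Set.finite_singleton (0 : K)).infinite_compl hfin2

/-- the coefficients of the identity -/
lemma eq_of_poly_rel {K : Type} [Field K] {k l : ℕ} (hk : 0 < k) (hl : 0 < l) {z w : K}
    (hz : z ^ k = 1) (hw : w ^ k = 1) (hkK : (k : K) ≠ 0) (hlK : (l : K) ≠ 0)
    (h : ((-(Polynomial.C z * Polynomial.X ^ l) - Polynomial.C w) ^ k : Polynomial K) =
        (-1 - Polynomial.X ^ k) ^ l) : k = l := by
  have hz0 : z ≠ 0 := by
    rintro rfl
    rw [zero_pow hk.ne'] at hz
    exact zero_ne_one hz
  have hw0 : w ≠ 0 := by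
    rintro rfl
    rw [zero_pow hk.ne'] at hw
    exact zero_ne_one hw
  have e1 : ((-(Polynomial.C z * Polynomial.X ^ l) - Polynomial.C w) ^ k : Polynomial K) =
      Polynomial.expand K l ((-(Polynomial.C z * Polynomial.X) - Polynomial.C w) ^ k) := by
    simp
  have e2 : ((-1 - Polynomial.X ^ k) ^ l : Polynomial K) =
      Polynomial.expand K k ((-1 - Polynomial.X) ^ l) := by
    simp
  rw [e1, e2] at h
  have c1 : ∀ (x y : K) (j : ℕ), ((-(Polynomial.C x * Polynomial.X) - Polynomial.C y) ^ j :
      Polynomial K).coeff 1 = j * (-y) ^ (j - 1) * (-x) := by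
    intro x y j
    have h5 : ((-(Polynomial.C x * Polynomial.X) - Polynomial.C y) ^ j : Polynomial K).coeff 1 =
        (Polynomial.derivative
          ((-(Polynomial.C x * Polynomial.X) - Polynomial.C y) ^ j : Polynomial K)).eval 0 := by
      rw [← Polynomial.coeff_zero_eq_eval_zero, Polynomial.coeff_derivative]
      simp
    rw [h5, Polynomial.derivative_pow]
    simp
  rcases lt_trichotomy k l with hlt | heq | hgt
  · exfalso
    have h3 := congrArg (fun p => Polynomial.coeff p k) h
    rw [Polynomial.coeff_expand hl, if_neg (Nat.not_dvd_of_pos_of_lt hk hlt),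
      Polynomial.coeff_expand hk, if_pos dvd_rfl, Nat.div_self hk] at h3
    have h4 := c1 1 1 l
    simp only [map_one, one_mul] at h4
    rw [show (-1 - Polynomial.X : Polynomial K) = -Polynomial.X - 1 by ring, h4] at h3
    have h6 : (-1 : K) ^ (l - 1) ≠ 0 := pow_ne_zero _ (by simp)
    exact (mul_ne_zero (mul_ne_zero hlK h6) (by simp)) h3.symm
  · exact heq
  · exfalso
    have h3 := congrArg (fun p => Polynomial.coeff p l) h
    rw [Polynomial.coeff_expand hl, if_pos dvd_rfl, Nat.div_self hl,
      Polynomial.coeff_expand hk, if_neg (Nat.not_dvd_of_pos_of_lt hl hgt), c1] at h3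
    have h6 : (-w) ^ (k - 1) ≠ 0 := pow_ne_zero _ (by simpa using hw0)
    exact (mul_ne_zero (mul_ne_zero hkK h6) (by simpa using hz0)) h3

lemma subset_closureN {n : ℕ} {K : Type} [Field K] (S : Set (Matrix (Fin n) (Fin n) K)) :
    S ⊆ closureN S :=
  fun _ hB _ hf => hf _ hB

/-- no closure contains another one -/
theorem not_subset {K : Type} [Field K] [IsAlgClosed K] {n : ℕ} (hn : 3 ≤ n) {k l : ℕ}
    (hk : (k : K) ≠ 0) (hl : (l : K) ≠ 0)
    (h : closureN (imageN n (SixClosuresFalse.comm K ^ l)) ⊆
      closureN (imageN n (SixClosuresFalse.comm K ^ k))) : k = l := by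
  obtain ⟨m, rfl⟩ : ∃ m, n = m + 3 := ⟨n - 3, by omega⟩
  have hk0 : 0 < k := Nat.pos_of_ne_zero fun h0 => hk (by simp [h0])
  have hl0 : 0 < l := Nat.pos_of_ne_zero fun h0 => hl (by simp [h0])
  obtain ⟨z, w, hz, hw, hr⟩ := poly_rel hk0 hl0 ((subset_closureN _).trans h)
  exact eq_of_poly_rel hk0 hl0 hz hw hk hl hr

lemma homog_pow (K : Type) [Field K] (k : ℕ) : IsHomog (2 * k) (SixClosuresFalse.comm K ^ k) := by
  induction k with
  | zero =>
    rw [pow_zero]
    exact Submodule.subset_span ⟨[], by simp, by simp⟩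
  | succ k ih =>
    rw [pow_succ]
    exact homog_mul ih (homog_comm K)

lemma infinite_prime_to (K : Type) [Field K] : {k : ℕ | (k : K) ≠ 0}.Infinite := by
  obtain ⟨p, hp⟩ := CharP.exists K
  by_cases h0 : p = 0
  · subst h0
    have : CharZero K := CharP.charP_to_charZero K
    refine (Set.infinite_of_injective_forall_mem Nat.succ_injective fun k => ?_)
    simp only [Set.mem_ofPred_eq]
    exact Nat.cast_ne_zero.2 (Nat.succ_ne_zero k)
  · refine Set.infinite_of_injective_forall_mem (f := fun k => p * k + 1) (fun a b hab => ?_)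
      fun k => ?_
    · have : p * a = p * b := by simpa using hab
      exact Nat.eq_of_mul_eq_mul_left (Nat.pos_of_ne_zero h0) this
    · simp only [Set.mem_ofPred_eq]
      push_cast
      rw [CharP.cast_eq_zero]
      simp

/-- every diagonal matrix of trace zero is a commutator -/
lemma diag_comm {K : Type} [Field K] {n : ℕ} (a : Fin n → K) (ha : ∑ i, a i = 0) :
    ∃ A B : Matrix (Fin n) (Fin n) K, A * B - B * A = Matrix.diagonal a := by
  classical
  -- partial sums
  let u : ℕ → K := fun j => ∑ t : Fin n, if (t : ℕ) ≤ j then a t else 0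
  refine ⟨Matrix.of fun i j => if (j : ℕ) = i + 1 then 1 else 0,
    Matrix.of fun i j => if (i : ℕ) = j + 1 then u j else 0, ?_⟩
  ext i i'
  rw [Matrix.sub_apply, Matrix.mul_apply, Matrix.mul_apply]
  simp only [Matrix.of_apply]
  have hlast : ∀ j : ℕ, n ≤ j + 1 → u j = 0 := by
    intro j hj
    rw [← ha]
    refine Finset.sum_congr rfl fun t _ => ?_
    rw [if_pos (by have := t.2; omega)]
  -- first product
  have h1 : ∑ j : Fin n, ((if (j : ℕ) = i + 1 then 1 else 0) * if (j : ℕ) = i' + 1 then u i' else 0) =
      if i = i' then u i else (0 : K) := by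
    by_cases hlt : (i : ℕ) + 1 < n
    · rw [Finset.sum_eq_single (⟨i + 1, hlt⟩ : Fin n)]
      · by_cases hii : i = i'
        · subst hii
          simp
        · have : ¬ ((i : ℕ) = i') := fun h => hii (Fin.ext h)
          simp [hii, this]
      · intro j _ hj
        rw [if_neg, zero_mul]
        intro h
        exact hj (Fin.ext h)
      · simp
    · rw [Finset.sum_eq_zero]
      · rw [hlast i (by omega)]
        simp
      · intro j _
        rw [if_neg, zero_mul]
        have := j.2
        omega
  have h2 : ∑ j : Fin n, ((if (i : ℕ) = j + 1 then u j else 0) * if (i' : ℕ) = j + 1 then 1 else 0) =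
      if i = i' then (if (i : ℕ) = 0 then 0 else u (i - 1)) else (0 : K) := by
    by_cases h0 : (i : ℕ) = 0
    · rw [Finset.sum_eq_zero]
      · simp [h0]
      · intro j _
        rw [if_neg (by omega), zero_mul]
    · have hlt : (i : ℕ) - 1 < n := by have := i.2; omega
      rw [Finset.sum_eq_single (⟨i - 1, hlt⟩ : Fin n)]
      · by_cases hii : i = i'
        · subst hii
          have : (i : ℕ) = i - 1 + 1 := by omega
          simp [h0, ← this]
        · have h3 : ¬ ((i' : ℕ) = i - 1 + 1) := fun h => hii (Fin.ext (by omega))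
          simp [hii, h3]
      · intro j _ hj
        rw [if_neg, zero_mul]
        intro h
        exact hj (Fin.ext (by simp only; omega))
      · simp
  rw [h1, h2]
  by_cases hii : i = i'
  · subst hii
    rw [if_pos rfl, if_pos rfl, Matrix.diagonal_apply_eq]
    have key : u i = (∑ t : Fin n, if (t : ℕ) < i then a t else 0) + a i := by
      have h4 : ∀ t : Fin n, (if (t : ℕ) ≤ i then a t else 0) =
          (if (t : ℕ) < i then a t else 0) + (if t = i then a t else 0) := by
        intro t
        rcases lt_trichotomy (t : ℕ) i with h | h | h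
        · rw [if_pos h.le, if_pos h, if_neg (fun h5 => by rw [h5] at h; omega), add_zero]
        · have h6 : t = i := Fin.ext h
          rw [h6]
          simp
        · rw [if_neg (by omega), if_neg (by omega), if_neg (fun h5 => by rw [h5] at h; omega),
            add_zero]
      simp only [u, h4]
      rw [Finset.sum_add_distrib, Finset.sum_ite_eq' Finset.univ i a, if_pos (Finset.mem_univ _)]
    by_cases h0 : (i : ℕ) = 0
    · rw [if_pos h0, key, Finset.sum_eq_zero]
      · simp
      · intro t _
        rw [if_neg (by omega)]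
    · rw [if_neg h0, key]
      have : u (i - 1) = ∑ t : Fin n, if (t : ℕ) < i then a t else 0 := by
        refine Finset.sum_congr rfl fun t _ => ?_
        congr 1
        exact propext (by omega)
      rw [this]
      ring
  · rw [if_neg hii, if_neg hii, Matrix.diagonal_apply_ne _ hii, sub_zero]

/-- the diagonal matrices in the closure -/
theorem diag_iff {K : Type} [Field K] [IsAlgClosed K] {n k : ℕ} (hk : 0 < k) (b : Fin n → K) :
    Matrix.diagonal b ∈ closureN (imageN n (SixClosuresFalse.comm K ^ k)) ↔
      ∃ a : Fin n → K, ∑ i, a i = 0 ∧ ∀ i, b i = a i ^ k := by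
  classical
  constructor
  · intro h
    obtain ⟨a, ha, hc⟩ := closure_eigen hk h
    rw [Matrix.charpoly_diagonal] at hc
    have hc' := congrArg Polynomial.roots hc
    rw [prod_eq_multiset, prod_eq_multiset, Polynomial.roots_multiset_prod_X_sub_C,
      Polynomial.roots_multiset_prod_X_sub_C] at hc'
    obtain ⟨σ, hσ⟩ := exists_perm_of_map_eq _ _ hc'
    refine ⟨a ∘ σ, ?_, fun i => ?_⟩
    · rw [← ha]
      exact Equiv.sum_comp σ a
    · have := congrFun hσ i
      simpa using this.symm
  · rintro ⟨a, ha, hab⟩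
    obtain ⟨A, B, hAB⟩ := diag_comm a ha
    apply subset_closureN
    refine ⟨![A, B], ?_⟩
    rw [lift_comm_pow]
    simp only [Matrix.cons_val_zero, Matrix.cons_val_one]
    rw [hAB, Matrix.diagonal_pow]
    congr 1
    funext i
    rw [hab i, Pi.pow_apply]

/-- The Zariski closures of the images on `n × n` matrices of the homogeneous noncommutative
polynomials of positive degree. -/
def closures (n : ℕ) (K : Type) [Field K] : Set (Set (Matrix (Fin n) (Fin n) K)) :=
  {Z | ∃ (m d : ℕ) (p : FreeAlgebra K (Fin m)), 1 ≤ d ∧ IsHomog d p ∧ Z = closureN (imageN n p)}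

theorem closures_infinite (K : Type) [Field K] [IsAlgClosed K] (n : ℕ) (hn : 3 ≤ n) :
    (closures n K).Infinite := by
  have hinj : Set.InjOn (fun k : ℕ => closureN (imageN n (SixClosuresFalse.comm K ^ k)))
      {k : ℕ | (k : K) ≠ 0} := by
    intro k hk l hl hkl
    exact not_subset hn hk hl (le_of_eq hkl.symm)
  refine ((infinite_prime_to K).image hinj).mono ?_
  rintro _ ⟨k, hk, rfl⟩
  have hk0 : 0 < k := Nat.pos_of_ne_zero fun h0 => hk (by simp [h0])
  exact ⟨2, 2 * k, SixClosuresFalse.comm K ^ k, by omega, homog_pow K k, rfl⟩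

theorem result (K : Type) [Field K] [IsAlgClosed K] :
    -- (1) the closure of the image of `[x, y] ^ k`: its diagonal matrices
    (∀ n k : ℕ, 1 ≤ k → ∀ b : Fin n → K,
      (Matrix.diagonal b ∈ closureN (imageN n (SixClosuresFalse.comm K ^ k)) ↔
        ∃ a : Fin n → K, ∑ i, a i = 0 ∧ ∀ i, b i = a i ^ k)) ∧
    -- (2) for different exponents prime to the characteristic no closure contains the other
    (∀ n : ℕ, 3 ≤ n → ∀ k l : ℕ, (k : K) ≠ 0 → (l : K) ≠ 0 → k ≠ l →
      ¬ closureN (imageN n (SixClosuresFalse.comm K ^ k)) ⊆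
        closureN (imageN n (SixClosuresFalse.comm K ^ l))) ∧
    -- (3) there are infinitely many closures
    (∀ n : ℕ, 3 ≤ n → (closures n K).Infinite) ∧
    -- (4) answer to the question: infinitely many closures besides the six conjectured ones
    {Z | Z ∈ closures 3 K ∧ Z ≠ {0} ∧ Z ≠ scalars K ∧ Z ≠ V3 K ∧ Z ≠ sl3 K ∧
      Z ≠ zariskiClosure (V3K K) ∧ Z ≠ Set.univ}.Infinite := by
  refine ⟨fun n k hk b => diag_iff hk b, fun n hn k l hk hl hkl h => ?_,
    fun n hn => closures_infinite K n hn, ?_⟩
  · exact hkl (not_subset hn hl hk h).symm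
  · have hfin : ({{0}, scalars K, V3 K, sl3 K, zariskiClosure (V3K K), Set.univ} :
        Set (Set (Matrix (Fin 3) (Fin 3) K))).Finite := Set.toFinite _
    refine ((closures_infinite K 3 le_rfl).sdiff hfin).mono ?_
    rintro Z ⟨hZ, hZ'⟩
    simp only [Set.mem_insert_iff, Set.mem_singleton_iff, not_or] at hZ'
    exact ⟨hZ, hZ'⟩

end Pool.Agent.Results.MP_1a49c3_al.InfinitelyManyClosures
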